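import Pool.Agent.Q213.KV.Main

/-!
Kato–Voigt semigroups on `L¹(0,1)`: an honest, not genuinely honest semigroup with a null vector
outside `D(M₁)` for which `1` is not an eigenvalue of `P(0 - M₁)⁻¹`.

`M₁ φ = -(1 + b) φ` and `P φ = (∫ φ) 1 + b φ` with `b(x) = 1/x`, which is not integrable on
`(0,1)`.  Then `M₁ + P = T - I` on `D(M₁)`, where `T φ = (∫ φ) 1`; the Kato–Voigt semigroup is
generated by the bounded operator `T - I`, and `P(0 - M₁)⁻¹ u = (∫ u/(1+b)) 1 + (b/(1+b)) u`.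
-/

namespace Pool.Agent.Results.MP_e4fc02_an.NoEigenvector

open MeasureTheory Filter Topology Set Pool.Agent.Q213.KV

section

variable {Ξ : Type*} [MeasurableSpace Ξ] {ν : Measure Ξ}

/-- Symbol of the resolvent of `M₁` at `max r 0`. -/
noncomputable def rs (b : Ξ → ℝ) (r : ℝ) (x : Ξ) : ℝ := (max r 0 + 1 + b x)⁻¹

/-- Symbol of `b (r - M₁)⁻¹` at `max r 0`. -/
noncomputable def ks (b : Ξ → ℝ) (r : ℝ) (x : Ξ) : ℝ := b x * (max r 0 + 1 + b x)⁻¹

variable {b : Ξ → ℝ} (hb : Measurable b) (hb0 : ∀ x, 0 ≤ b x)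

include hb hb0 in
lemma rs_bd (r : ℝ) : Bd (rs b r) := by
  refine ⟨?_, fun x => ?_⟩
  · unfold rs
    fun_prop
  · unfold rs
    have h1 : 1 ≤ max r 0 + 1 + b x := by linarith [le_max_right r 0, hb0 x]
    rw [abs_of_pos (inv_pos.2 (by linarith))]
    exact inv_le_one_of_one_le₀ h1

include hb hb0 in
lemma ks_bd (r : ℝ) : Bd (ks b r) := by
  refine ⟨?_, fun x => ?_⟩
  · unfold ks
    fun_prop
  · unfold ks
    have h1 : 1 ≤ max r 0 + 1 + b x := by linarith [le_max_right r 0, hb0 x]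
    rw [abs_of_nonneg (mul_nonneg (hb0 x) (inv_pos.2 (by linarith)).le), ← div_eq_mul_inv]
    rw [div_le_one (by linarith)]
    linarith [le_max_right r 0]

omit [MeasurableSpace Ξ] in
include hb0 in
lemma rs_tendsto (x : Ξ) : Tendsto (fun r => rs b r x) (𝓝[>] 0) (𝓝 (rs b 0 x)) := by
  have h : Continuous fun r : ℝ => rs b r x := by
    unfold rs
    refine Continuous.inv₀ (by fun_prop) fun r => ?_
    have h1 : 1 ≤ max r 0 + 1 + b x := by linarith [le_max_right r 0, hb0 x]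
    linarith
  exact (h.tendsto 0).mono_left nhdsWithin_le_nhds

omit [MeasurableSpace Ξ] in
include hb0 in
lemma ks_tendsto (x : Ξ) : Tendsto (fun r => ks b r x) (𝓝[>] 0) (𝓝 (ks b 0 x)) :=
  (rs_tendsto hb0 x).const_mul (b x)

variable [IsProbabilityMeasure ν]

/-- The operator `P(0 - M₁)⁻¹`. -/
noncomputable def K (ν : Measure Ξ) [IsProbabilityMeasure ν] {b : Ξ → ℝ} (hb : Measurable b)
    (hb0 : ∀ x, 0 ≤ b x) : Lp ℝ 1 ν →L[ℝ] Lp ℝ 1 ν :=
  (T ν).comp (mulOp ν (rs_bd hb hb0 0)) + mulOp ν (ks_bd hb hb0 0)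

omit [IsProbabilityMeasure ν] in
lemma resolvent (r : ℝ) (hr : 0 < r) (u φ : Lp ℝ 1 ν) :
    Gen (S1 ν hb hb0) φ (r • φ - u) ↔ φ = mulOp ν (rs_bd hb hb0 r) u := by
  have h1 : ∀ x, 0 < r + 1 + b x := fun x => by linarith [hb0 x]
  rw [S1_gen]
  constructor
  · intro h
    refine Lp.ext ?_
    filter_upwards [h, Lp.coeFn_sub (r • φ) u, Lp.coeFn_smul r φ,
      mulOp_coe (rs_bd hb hb0 r) u] with x e1 e2 e3 e4
    rw [e2, Pi.sub_apply, e3, Pi.smul_apply, smul_eq_mul] at e1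
    rw [e4]
    unfold rs
    rw [max_eq_left hr.le, eq_inv_mul_iff_mul_eq₀ (h1 x).ne']
    linarith
  · rintro rfl
    filter_upwards [Lp.coeFn_sub (r • (mulOp ν (rs_bd hb hb0 r) u)) u,
      Lp.coeFn_smul r (mulOp ν (rs_bd hb hb0 r) u), mulOp_coe (rs_bd hb hb0 r) u] with x e2 e3 e4
    rw [e2, Pi.sub_apply, e3, Pi.smul_apply, smul_eq_mul, e4]
    unfold rs
    rw [max_eq_left hr.le]
    have h2 := (h1 x).ne'
    field_simp
    ring

lemma isPZero : IsPZero (S1 ν hb hb0) (Pop ν b) (K ν hb hb0) := by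
  refine ⟨fun r u => mulOp ν (rs_bd hb hb0 r) u,
    fun r u => T ν (mulOp ν (rs_bd hb hb0 r) u) + mulOp ν (ks_bd hb hb0 r) u,
    fun r hr u φ => resolvent hb hb0 r hr u φ, fun r hr u => ?_, fun u => ?_⟩
  · rw [mem_graph]
    filter_upwards [Lp.coeFn_add (T ν (mulOp ν (rs_bd hb hb0 r) u)) (mulOp ν (ks_bd hb hb0 r) u),
      T_coe (mulOp ν (rs_bd hb hb0 r) u), mulOp_coe (rs_bd hb hb0 r) u,
      mulOp_coe (ks_bd hb hb0 r) u] with x e1 e2 e3 e4
    rw [e1, Pi.add_apply, e2, e3, e4]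
    unfold rs ks
    ring
  · have h1 := mulOp_tendsto (ν := ν) (l := 𝓝[>] (0 : ℝ)) (fun r => rs_bd hb hb0 r)
      (rs_bd hb hb0 0) (fun x => rs_tendsto hb0 x) u
    have h2 := mulOp_tendsto (ν := ν) (l := 𝓝[>] (0 : ℝ)) (fun r => ks_bd hb hb0 r)
      (ks_bd hb hb0 0) (fun x => ks_tendsto hb0 x) u
    exact (((T ν).continuous.tendsto _).comp h1).add h2

lemma no_eigenvector (hbi : ¬ Integrable b ν) (u : Lp ℝ 1 ν) (h : K ν hb hb0 u = u) : u = 0 := by
  have e : K ν hb hb0 u = T ν (mulOp ν (rs_bd hb hb0 0) u) + mulOp ν (ks_bd hb hb0 0) u := rfl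
  rw [e] at h
  obtain ⟨c, hc⟩ : ∃ c : ℝ, c = ∫ x, (mulOp ν (rs_bd hb hb0 0) u) x ∂ν := ⟨_, rfl⟩
  have h1 : (u : Ξ → ℝ) =ᵐ[ν] fun x => c * (1 + b x) := by
    have h0 := Lp.coeFn_add (T ν (mulOp ν (rs_bd hb hb0 0) u)) (mulOp ν (ks_bd hb hb0 0) u)
    rw [h] at h0
    filter_upwards [h0, T_coe (mulOp ν (rs_bd hb hb0 0) u), mulOp_coe (ks_bd hb hb0 0) u]
      with x e1 e2 e4
    rw [Pi.add_apply, e2, e4, ← hc] at e1
    have h2 : 0 < 1 + b x := by linarith [hb0 x]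
    have h3 : ks b 0 x = b x * (1 + b x)⁻¹ := by
      unfold ks
      rw [max_self, zero_add]
    rw [h3] at e1
    have h4 : (u x) * (1 + b x) = c * (1 + b x) + b x * u x := by
      have h5 : b x * (1 + b x)⁻¹ * u x * (1 + b x) = b x * u x := by
        field_simp
      nth_rewrite 1 [e1]
      rw [add_mul, h5]
    linarith
  by_cases hc0 : c = 0
  · refine Lp.ext ?_
    filter_upwards [h1, Lp.coeFn_zero ℝ 1 ν] with x e1 e2
    rw [e1, e2, hc0]
    simp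
  · exfalso
    apply hbi
    refine (((L1.integrable_coeFn u).const_mul c⁻¹).sub (integrable_const (1 : ℝ))).congr ?_
    filter_upwards [h1] with x e1
    rw [Pi.sub_apply, e1]
    field_simp
    ring

lemma one_not_dom (hbi : ¬ Integrable b ν) (y : Lp ℝ 1 ν) : ¬ Gen (S1 ν hb hb0) (one ν) y := by
  intro h
  have h1 := (gen_iff_dom hb hb0 (one ν)).1 ⟨y, h⟩
  have h2 : Integrable (fun x => b x * one ν x) ν := h1
  apply hbi
  refine h2.congr ?_
  filter_upwards [one_coe (ν := ν)] with x e1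
  rw [e1, mul_one]

end

/-- Lebesgue measure on the interval `(0,1)`. -/
noncomputable abbrev unitLeb : Measure ℝ := volume.restrict (Ioo (0 : ℝ) 1)

instance : IsProbabilityMeasure unitLeb := by
  constructor
  simp [unitLeb]

lemma inv_not_integrable : ¬ Integrable (fun x : ℝ => |x|⁻¹) unitLeb := by
  intro h
  have h1 : IntegrableOn (fun x : ℝ => x ^ (-1 : ℝ)) (Ioo (0 : ℝ) 1) := by
    refine Integrable.congr h ?_
    refine (ae_restrict_mem measurableSet_Ioo).mono fun x hx => ?_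
    simp only
    rw [abs_of_pos hx.1, Real.rpow_neg_one]
  rw [intervalIntegral.integrableOn_Ioo_rpow_iff one_pos] at h1
  exact lt_irrefl _ h1

/-- The real space `L¹(0,1)`. -/
def E : Type := Lp ℝ 1 unitLeb

noncomputable instance instG : NormedAddCommGroup E :=
  (inferInstance : NormedAddCommGroup (Lp ℝ 1 unitLeb))

noncomputable instance instS : NormedSpace ℝ E :=
  (inferInstance : NormedSpace ℝ (Lp ℝ 1 unitLeb))

noncomputable instance instO : PartialOrder E := (inferInstance : PartialOrder (Lp ℝ 1 unitLeb))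

/-- The integral of an element of `L¹(0,1)`. -/
noncomputable def intE (φ : E) : ℝ := ∫ x, (show Lp ℝ 1 unitLeb from φ) x ∂unitLeb

theorem result_aux :
    ∃ (S₁ J : ℝ → Lp ℝ 1 unitLeb →L[ℝ] Lp ℝ 1 unitLeb)
      (P : Lp ℝ 1 unitLeb →ₗ.[ℝ] Lp ℝ 1 unitLeb) (K : Lp ℝ 1 unitLeb →L[ℝ] Lp ℝ 1 unitLeb)
      (v : Lp ℝ 1 unitLeb),
      IsSubstochastic S₁ ∧ Admissible (fun φ : Lp ℝ 1 unitLeb => ∫ x, φ x ∂unitLeb) S₁ P ∧
      Conservative (fun φ : Lp ℝ 1 unitLeb => ∫ x, φ x ∂unitLeb) S₁ P ∧ ExpStable S₁ ∧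
      IsKatoVoigt S₁ P J ∧ Honest S₁ P J ∧ ¬ GenuinelyHonest S₁ P J ∧
      IsOuterNull S₁ J v ∧ IsPZero S₁ P K ∧ ¬ OneIsEigenvalue K := by
  have hb : Measurable (fun x : ℝ => |x|⁻¹) := by fun_prop
  have hb0 : ∀ x : ℝ, 0 ≤ |x|⁻¹ := fun x => inv_nonneg.2 (abs_nonneg x)
  have hv : Gen (J unitLeb) (one unitLeb) 0 := by
    rw [J_gen, T_one, sub_self]
  refine ⟨S1 unitLeb hb hb0, J unitLeb, Pop unitLeb _, K unitLeb hb hb0, one unitLeb,
    S1_sub hb hb0, admissible hb hb0, ?_, fun t ht => S1_norm hb hb0 ht, katoVoigt hb hb0,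
    honest hb hb0, ?_, ⟨one_nonneg, one_ne, hv, one_not_dom hb hb0 inv_not_integrable⟩,
    isPZero hb hb0, ?_⟩
  · rintro ⟨φ, w⟩ h
    rw [sumGraph_iff] at h
    simp only
    rw [h.2, integral_congr_ae (Lp.coeFn_sub (T unitLeb φ) φ)]
    simp only [Pi.sub_apply]
    rw [integral_sub (L1.integrable_coeFn _) (L1.integrable_coeFn _), integral_T, sub_self]
  · intro h
    have h1 : (one unitLeb, (0 : Lp ℝ 1 unitLeb)) ∈ genGraph (J unitLeb) := hv
    rw [GenuinelyHonest] at h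
    rw [h] at h1
    obtain ⟨y, z, hy, -, -⟩ := h1
    exact one_not_dom hb hb0 inv_not_integrable y hy
  · rintro ⟨u, hu0, hu⟩
    exact hu0 (no_eigenvector hb hb0 inv_not_integrable u hu)

/-- On `L¹(0,1)` there are a substochastic semigroup `S₁` with generator `M₁`, an admissible
perturbation `P` with `∫ (M₁ φ + P φ) = 0` on `D(M₁)`, and the corresponding Kato–Voigt semigroup
`J`, such that `J` is honest and not genuinely honest, some nonzero `v ≥ 0` outside `D(M₁)`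
satisfies `J₁ v = 0`, and `1` is not an eigenvalue of `P(0 - M₁)⁻¹`. -/
theorem result :
    ∃ (S₁ J : ℝ → E →L[ℝ] E) (P : E →ₗ.[ℝ] E) (K : E →L[ℝ] E) (v : E),
      IsSubstochastic S₁ ∧ Admissible intE S₁ P ∧ Conservative intE S₁ P ∧ ExpStable S₁ ∧
      IsKatoVoigt S₁ P J ∧ Honest S₁ P J ∧ ¬ GenuinelyHonest S₁ P J ∧
      IsOuterNull S₁ J v ∧ IsPZero S₁ P K ∧ ¬ OneIsEigenvalue K :=
  result_aux

end Pool.Agent.Results.MP_e4fc02_an.NoEigenvector
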